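import Pool.Agent.H17.CX.Targets

/-!
# MP_70ba79_ag, THEOREM S (surfaces): smooth hypersurface sections are irreducible (CNX)
-/

set_option autoImplicit false

open MvPolynomial SC Pool.Agent.H27.LV
open Pool.Agent.H92.SF Pool.Agent.H3.SF Pool.Agent.H17.SD Pool.Agent.H17.SFG Pool.Agent.H17.CX

namespace Pool.Agent.H38.CNX

theorem pf_CNX (hDCP : T_DCP) (hNZA : T_NZA) (hNZB : T_NZB) (hRGF : T_RGF) (hVAN : T_VAN)
    (hINE : T_INE) (hDGZ : T_DGZ) (hCNT : T_CNT) (hKRU : T_KRU) : T_CNX := by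
  intro k F σ _ _ _ _ _ _ X m G hC hm hG hG0 hSm
  by_contra hirr
  obtain ⟨u, θ, dd, δ, j0, c0, J, hS, hP, -⟩ := A.sfc k F σ X hC
  have hli := dd_li X u dd hP.ulin hS.du
  have hSt : Stg X dd m G := ⟨hC, hli, hm, hG, hG0, hSm⟩
  obtain ⟨Q, Q', g, g', h, dh, hQ, hQ', hh, hhQ, hhQ'⟩ := hDCP k F σ X m G hC.hmg hm hG hG0 hirr
  obtain ⟨n, a, p, b, hn, ha, hR, hnc⟩ :=
    hCNT k F σ X dd m G g g' h Q Q' dh hSt hQ hQ' hh hhQ hhQ'
  obtain ⟨LL, _, _, ρ, W, hker, hadj, hW, hWi, hXi⟩ := hNZA k F σ X dd m G g Q hSt hQ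
  obtain ⟨c, hc0, hcd⟩ := hNZB k σ LL ρ W hadj hW hWi hXi
  have hNr : Nrz Q ρ W c := ⟨hker, hW, hWi, hXi, fun hcQ => hc0 ((hker c).2 hcQ), hcd⟩
  have hρ : ∀ f, f ∉ Q → ρ f ≠ 0 := fun f hf h0 => hf ((hker f).1 h0)
  -- the restriction is constant
  obtain ⟨d, e, p1, b1, hp1, hb1, hR1, hde, -⟩ :=
    hRGF k F σ X m G g Q hC.hmg hG hG0 hQ (n * m) n a p b ha hR
  have hρ1 := hρ p1 hR1.1
  have hz : ρ p1 * (ρ b1 / ρ p1) = ρ b1 := mul_div_cancel₀ _ hρ1
  obtain ⟨c1, hc1⟩ : ∃ c1 : k, ρ b1 / ρ p1 = algebraMap k LL c1 := by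
    rcases hde with hb0 | hde
    · refine ⟨0, ?_⟩
      rw [hb0, map_zero, zero_div, map_zero]
    · exact (hDGZ k σ LL Q ρ W hQ.hom hker hW d e p1 b1 hp1 hb1 hR1.1 (by omega) _ hz
        (hINE k F σ LL X dd m G g Q ρ W c hSt hQ hNr (n * m) n a p1 b1 ha hR1 _ hz)).2 (by omega)
  have hb1' : ρ b1 = algebraMap k LL c1 * ρ p1 := by
    rw [← hc1, div_mul_cancel₀ _ hρ1]
  set a1 : MvPolynomial σ k := a - C c1 * G ^ n with ha1
  have ha1h : a1.IsHomogeneous (n * m) := by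
    have h1 := (isHomogeneous_C σ c1).mul (hG.pow n)
    rw [zero_add, mul_comm m n] at h1
    exact ha.sub h1
  have hR1' : Rgl X G Q n a1 p1 (b1 - C c1 * p1) := by
    refine ⟨hR1.1, ?_⟩
    have h1 := hR1.2
    rw [map_mul, map_mul] at h1
    rw [ha1, map_mul, map_mul, map_sub, map_sub, map_mul, map_mul, mul_sub, h1, map_pow]
    ring
  have hmem1 : b1 - C c1 * p1 ∈ Q := by
    rw [← hker, map_sub, map_mul, hb1', algHom_C, sub_self]
  have hn1 : ∃ p b, Rgl X G Q (n + 1) a1 p b :=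
    hVAN k F σ X dd m G g Q hSt hQ (n * m) n a1 p1 _ ha1h hR1' hmem1
  -- it vanishes to infinite order
  have hbig : ∀ i : ℕ, ∃ p b, Rgl X G Q (n + 1 + i) a1 p b := by
    intro i
    induction i with
    | zero => exact hn1
    | succ i ih =>
      obtain ⟨p2, b2, hR2⟩ := ih
      obtain ⟨d, e, p3, b3, hp3, hb3, hR3, hde, -⟩ :=
        hRGF k F σ X m G g Q hC.hmg hG hG0 hQ (n * m) (n + 1 + i) a1 p2 b2 ha1h hR2
      have hρ3 := hρ p3 hR3.1
      have hz3 : ρ p3 * (ρ b3 / ρ p3) = ρ b3 := mul_div_cancel₀ _ hρ3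
      have hmem3 : b3 ∈ Q := by
        rcases hde with hb0 | hde
        · rw [hb0]
          exact Q.zero_mem
        · have hlt : e < d := by
            have h1 : (n + 1 + i) * m = n * m + m + i * m := by ring
            rw [h1] at hde
            have h2 : 0 ≤ i * m := Nat.zero_le _
            omega
          have h1 := (hDGZ k σ LL Q ρ W hQ.hom hker hW d e p3 b3 hp3 hb3 hR3.1 hlt.le _ hz3
            (hINE k F σ LL X dd m G g Q ρ W c hSt hQ hNr (n * m) (n + 1 + i) a1 p3 b3 ha1h hR3 _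
              hz3)).1 hlt
          rw [h1, mul_zero] at hz3
          exact (hker b3).1 hz3.symm
      exact hVAN k F σ X dd m G g Q hSt hQ (n * m) (n + 1 + i) a1 p3 b3 ha1h hR3 hmem3
  have hall : ∀ j : ℕ, ∃ p b, Rgl X G Q j a1 p b := by
    intro j
    by_cases hj : n + 1 ≤ j
    · obtain ⟨i, rfl⟩ := Nat.exists_eq_add_of_le hj
      exact hbig i
    · obtain ⟨p2, b2, hR2⟩ := hn1
      refine ⟨p2, b2 * G ^ (n + 1 - j), hR2.1, ?_⟩
      rw [hR2.2, mul_assoc, ← pow_add]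
      congr 3
      omega
  have hzero := hKRU k F σ X dd m G g Q hSt hQ (n * m) a1 ha1h hall
  refine hnc c1 ?_
  rw [ha1, map_sub, map_mul, map_pow, algHom_C, sub_eq_zero] at hzero
  exact hzero

end Pool.Agent.H38.CNX
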